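import Pool.Agent.H459Z.TD.Star

namespace Pool.Agent.Results.MP_bd25ec_co.AStarFree

open Pool.Agent.H459Z.Star

/-- For all `d ≥ 2` and `k` there is `c` such that every finite `K_{1,d}`-free graph of sim-width
at most `k` has tree-independence number at most `c`. -/
theorem result (d k : ℕ) (hd : 2 ≤ d) : ∃ c : ℕ, ∀ (V : Type) [Fintype V] (G : SimpleGraph V),
    StarFree G d → SimWidthLE G k → TreeAlphaLE G c :=
  star_main d k hd

end Pool.Agent.Results.MP_bd25ec_co.AStarFree
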